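import Pool.Agent.Lib.MP_ea20df_gt.Defs

open Set TopologicalSpace Filter Topology Cardinal

namespace Pool.Agent.Lib.MP_ea20df_gt

universe u v

/-- Decreasing sequences of nonempty open sets with a pseudocompact set around have intersecting
closures. -/
theorem iInter_closure_nonempty {X : Type u} [TopologicalSpace X] [CompletelyRegularSpace X]
    {P : Set X} (hP : Pseudocompact P) {s : ℕ → Set X} (hs : ∀ n, IsOpen (s n))
    (hne : ∀ n, (s n).Nonempty) (hdec : ∀ n, s (n + 1) ⊆ s n) (hsP : s 0 ⊆ P) :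
    (⋂ n, closure (s n)).Nonempty := by
  by_contra hcon
  rw [not_nonempty_iff_eq_empty] at hcon
  have hanti : Antitone s := antitone_nat_of_succ_le hdec
  choose x hx using hne
  have hf : ∀ n, ∃ f : X → ℝ, Continuous f ∧ f (x n) = 1 ∧ (∀ y, y ∉ s n → f y = 0) ∧
      ∀ y, 0 ≤ f y := by
    intro n
    obtain ⟨f, hfc, hf0, hf1⟩ := CompletelyRegularSpace.completely_regular (x n) (s n)ᶜ
      (hs n).isClosed_compl (by simpa using hx n)
    refine ⟨fun y => 1 - (f y : ℝ), by fun_prop, by simp [hf0], ?_, ?_⟩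
    · intro y hy
      have := hf1 (show y ∈ (s n)ᶜ from hy)
      simp only [Pi.one_apply] at this
      simp [this]
    · intro y
      have := (f y).2.2
      linarith
  choose f hfc hf1 hf0 hfn using hf
  have hlf : LocallyFinite fun n : ℕ => Function.support fun y => (n : ℝ) * f n y := by
    intro y
    have hy : y ∉ ⋂ n, closure (s n) := by rw [hcon]; simp
    rw [mem_iInter] at hy
    push Not at hy
    obtain ⟨m, hm⟩ := hy
    refine ⟨(closure (s m))ᶜ, isClosed_closure.isOpen_compl.mem_nhds hm, ?_⟩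
    apply (finite_lt_nat m).subset
    rintro n ⟨z, hz1, hz2⟩
    by_contra hn
    have hmn : m ≤ n := not_lt.1 hn
    apply hz2
    apply subset_closure
    apply hanti hmn
    by_contra hzs
    exact hz1 (by simp [hf0 n z hzs])
  have hcont : Continuous fun y => ∑ᶠ n : ℕ, (n : ℝ) * f n y :=
    continuous_finsum (fun n => (hfc n).const_mul _) hlf
  obtain ⟨M, hM⟩ := hP (fun y : P => ∑ᶠ n : ℕ, (n : ℝ) * f n y) (hcont.comp continuous_subtype_val)
  obtain ⟨N, hN⟩ := exists_nat_gt M
  have hxN : x N ∈ P := hsP (hanti (Nat.zero_le N) (hx N))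
  have h1 := hM ⟨x N, hxN⟩
  have h2 : (N : ℝ) ≤ ∑ᶠ n : ℕ, (n : ℝ) * f n (x N) := by
    have h3 := single_le_finsum N (f := fun n : ℕ => (n : ℝ) * f n (x N)) (hlf.point_finite (x N))
      (fun n => mul_nonneg (Nat.cast_nonneg n) (hfn n (x N)))
    simpa [hf1 N] using h3
  have h3 := le_abs_self (∑ᶠ n : ℕ, (n : ℝ) * f n (x N))
  simp only at h1
  linarith

/-- If strict inclusions in a family of open sets are strong inclusions and every member lies in
a pseudocompact set then the family is countably compact. -/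
theorem countablyCompact_of_strong {X : Type u} [TopologicalSpace X] [CompletelyRegularSpace X]
    {B : Set (Set X)} (hopen : ∀ b ∈ B, IsOpen b) (hne : ∀ b ∈ B, b.Nonempty)
    (hP : ∀ b ∈ B, ∃ P : Set X, Pseudocompact P ∧ b ⊆ P)
    (hstrong : ∀ b ∈ B, ∀ c ∈ B, b ⊆ c → b ≠ c → closure b ⊆ c) : CountablyCompactFamily B := by
  intro s hs hdec
  have hanti : Antitone s := antitone_nat_of_succ_le hdec
  by_cases hev : ∃ N, ∀ n, N ≤ n → s n = s N
  · obtain ⟨N, hN⟩ := hev
    obtain ⟨x, hx⟩ := hne (s N) (hs N)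
    refine ⟨x, mem_iInter.2 fun n => ?_⟩
    rcases le_total N n with h | h
    · rw [hN n h]; exact hx
    · exact hanti h hx
  · push Not at hev
    obtain ⟨P, hP1, hP2⟩ := hP (s 0) (hs 0)
    obtain ⟨x, hx⟩ := iInter_closure_nonempty hP1 (fun n => hopen _ (hs n))
      (fun n => hne _ (hs n)) hdec hP2
    refine ⟨x, mem_iInter.2 fun n => ?_⟩
    obtain ⟨m, hm, hmn⟩ := hev n
    exact hstrong _ (hs m) _ (hs n) (hanti hm) hmn (mem_iInter.1 hx m)

/-- Well-founded choice. -/
theorem exists_choice {I : Type u} {β : Type v} (r : I → I → Prop) (hr : WellFounded r)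
    (S : (i : I) → ((j : I) → r j i → β) → Set β) (hS : ∀ i g, (S i g).Nonempty) :
    ∃ f : I → β, ∀ i, f i ∈ S i fun j _ => f j := by
  classical
  let F : (i : I) → ((j : I) → r j i → β) → β := fun i g => (hS i g).some
  refine ⟨hr.fix F, fun i => ?_⟩
  rw [hr.fix_eq]
  exact (hS i _).some_mem

/-- For given `V` and `f`, at most one `r` is bad in the first sense. -/
theorem bad_unique_left {X : Type u} [TopologicalSpace X] {f : X → ℝ} (hf : Continuous f)
    {V : Set X} {r r' : ℝ} (h : {x | f x < r} ⊆ V) (h1 : ¬ closure {x | f x < r} ⊆ V)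
    (h' : {x | f x < r'} ⊆ V) (h1' : ¬ closure {x | f x < r'} ⊆ V) : r = r' := by
  have key : ∀ a b : ℝ, a < b → {x | f x < b} ⊆ V → closure {x | f x < a} ⊆ V := by
    intro a b hab hb
    refine (closure_minimal (fun x hx => ?_) (isClosed_le hf continuous_const)).trans
      (fun x (hx : f x ≤ a) => hb (lt_of_le_of_lt hx hab))
    exact le_of_lt (show f x < a from hx)
  rcases lt_trichotomy r r' with hlt | heq | hlt
  · exact absurd (key _ _ hlt h') h1
  · exact heq
  · exact absurd (key _ _ hlt h) h1'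

/-- For given `V` and `f`, at most one `r` is bad in the second sense. -/
theorem bad_unique_right {X : Type u} [TopologicalSpace X] {f : X → ℝ} (hf : Continuous f)
    {V : Set X} {r r' : ℝ} (h : V ⊆ {x | f x < r}) (h1 : ¬ closure V ⊆ {x | f x < r})
    (h' : V ⊆ {x | f x < r'}) (h1' : ¬ closure V ⊆ {x | f x < r'}) : r = r' := by
  have key : ∀ a b : ℝ, a < b → V ⊆ {x | f x < a} → closure V ⊆ {x | f x < b} := by
    intro a b hab ha
    refine (closure_minimal (fun x hx => ?_) (isClosed_le hf continuous_const)).trans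
      (fun x (hx : f x ≤ a) => lt_of_le_of_lt hx hab)
    exact le_of_lt (show f x < a from ha hx)
  rcases lt_trichotomy r r' with hlt | heq | hlt
  · exact absurd (key _ _ hlt h) h1'
  · exact heq
  · exact absurd (key _ _ hlt h') h1

/-- An interval is not covered by fewer than continuum many pairs of subsingletons. -/
theorem not_covered {J : Type v} (hJ : #J < 𝔠) (A B : J → Set ℝ)
    (hA : ∀ j r r', r ∈ A j → r' ∈ A j → r = r') (hB : ∀ j r r', r ∈ B j → r' ∈ B j → r = r') :
    (Ioo (0 : ℝ) 1 \ ⋃ j, (A j ∪ B j)).Nonempty := by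
  classical
  by_contra hcon
  rw [not_nonempty_iff_eq_empty, sdiff_eq_empty] at hcon
  have h1 : ∀ r : Ioo (0 : ℝ) 1, ∃ j : J, (r : ℝ) ∈ A j ∪ B j := fun r => by
    simpa using hcon r.2
  choose j hj using h1
  let φ : Ioo (0 : ℝ) 1 → J × Bool := fun r => (j r, decide ((r : ℝ) ∈ A (j r)))
  have hφ : Function.Injective φ := by
    intro r r' h
    simp only [φ, Prod.mk.injEq] at h
    obtain ⟨h2, h3⟩ := h
    apply Subtype.ext
    by_cases hr : (r : ℝ) ∈ A (j r)
    · have hr' : (r' : ℝ) ∈ A (j r') := by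
        by_contra h4
        simp [hr, h4] at h3
      rw [← h2] at hr'
      exact hA _ _ _ hr hr'
    · have hr' : (r' : ℝ) ∉ A (j r') := by
        intro h4
        simp [hr, h4] at h3
      have e1 : (r : ℝ) ∈ B (j r) := (hj r).resolve_left hr
      have e2 : (r' : ℝ) ∈ B (j r') := (hj r').resolve_left hr'
      rw [← h2] at e2
      exact hB _ _ _ e1 e2
  have h2 := Cardinal.mk_le_of_injective
    (f := fun r : ULift.{v} (Ioo (0 : ℝ) 1) => φ r.down) (fun a b h => ULift.ext _ _ (hφ h))
  rw [Cardinal.mk_uLift, Cardinal.mk_Ioo_real zero_lt_one, Cardinal.lift_continuum] at h2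
  have h3 : #(J × Bool) < 𝔠 := by
    rw [Cardinal.mk_prod]
    apply Cardinal.mul_lt_of_lt Cardinal.aleph0_le_continuum
    · simpa using hJ
    · have : #Bool < ℵ₀ := Cardinal.lt_aleph0_of_finite Bool
      have h4 : Cardinal.lift.{v} #Bool < ℵ₀ := by simpa using this
      exact h4.trans_le Cardinal.aleph0_le_continuum
  exact absurd (h2.trans_lt h3) (lt_irrefl _)

/-- The main construction: generic sublevel sets of at most continuum many functions. -/
theorem exists_generic {X : Type u} [TopologicalSpace X] {I : Type v} (hI : #I ≤ 𝔠)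
    (f : I → X → ℝ) (hf : ∀ i, Continuous (f i)) :
    ∃ r : I → ℝ, (∀ i, r i ∈ Ioo (0 : ℝ) 1) ∧ ∀ i j, i ≠ j →
      {x | f i x < r i} ⊆ {x | f j x < r j} → closure {x | f i x < r i} ⊆ {x | f j x < r j} := by
  classical
  obtain ⟨_, hwf, hR⟩ := Cardinal.exists_ord_eq_type_lt I
  let S : (i : I) → ((j : I) → j < i → ℝ) → Set ℝ := fun i g =>
    Ioo (0 : ℝ) 1 \ ⋃ j : Iio i,
      ({r | {x | f i x < r} ⊆ {x | f j.1 x < g j.1 j.2} ∧
          ¬ closure {x | f i x < r} ⊆ {x | f j.1 x < g j.1 j.2}} ∪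
        {r | {x | f j.1 x < g j.1 j.2} ⊆ {x | f i x < r} ∧
          ¬ closure {x | f j.1 x < g j.1 j.2} ⊆ {x | f i x < r}})
  have hS : ∀ i g, (S i g).Nonempty := by
    intro i g
    apply not_covered ((Cardinal.mk_Iio_lt i hR).trans_le hI)
    · intro j r r' h h'
      exact bad_unique_left (hf i) h.1 h.2 h'.1 h'.2
    · intro j r r' h h'
      exact bad_unique_right (hf i) h.1 h.2 h'.1 h'.2
  obtain ⟨r, hr⟩ := exists_choice (fun a b : I => a < b) hwf.wf S hS
  refine ⟨r, fun i => (hr i).1, ?_⟩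
  intro i j hij hsub
  rcases lt_trichotomy i j with h | h | h
  · by_contra hc
    apply (hr j).2
    rw [mem_iUnion]
    exact ⟨⟨i, h⟩, Or.inr ⟨hsub, hc⟩⟩
  · exact absurd h hij
  · by_contra hc
    apply (hr i).2
    rw [mem_iUnion]
    exact ⟨⟨j, h⟩, Or.inl ⟨hsub, hc⟩⟩

end Pool.Agent.Lib.MP_ea20df_gt
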