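import Mathlib

open Set TopologicalSpace

namespace Pool.Agent.Lib.MP_ea20df_gt

universe u

/-- A space is pseudocompact if every continuous real function on it is bounded. -/
def Pseudocompact (X : Type u) [TopologicalSpace X] : Prop :=
  ∀ f : X → ℝ, Continuous f → ∃ M : ℝ, ∀ x, |f x| ≤ M

/-- A space is locally pseudocompact if every point has an open neighbourhood whose closure is
a pseudocompact space. -/
def LocallyPseudocompact (X : Type u) [TopologicalSpace X] : Prop :=
  ∀ x : X, ∃ U : Set X, IsOpen U ∧ x ∈ U ∧ Pseudocompact (closure U)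

/-- A family of sets is countably compact if every decreasing sequence of its members has
nonempty intersection. -/
def CountablyCompactFamily {X : Type u} (F : Set (Set X)) : Prop :=
  ∀ s : ℕ → Set X, (∀ n, s n ∈ F) → (∀ n, s (n + 1) ⊆ s n) → (⋂ n, s n).Nonempty

/-- A pseudobase: each member has nonempty interior, and each nonempty open set contains
a member. -/
def IsPseudobase {X : Type u} [TopologicalSpace X] (B : Set (Set X)) : Prop :=
  (∀ b ∈ B, (interior b).Nonempty) ∧ ∀ U : Set X, IsOpen U → U.Nonempty → ∃ b ∈ B, b ⊆ U

/-- Oxtoby countably compact spaces. -/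
def OxtobyCC (X : Type u) [TopologicalSpace X] : Prop :=
  ∃ B : Set (Set X), IsPseudobase B ∧ (∀ b ∈ B, IsOpen b) ∧ CountablyCompactFamily B

/-- Telgarsky countably compact spaces. -/
def TelgarskyCC (X : Type u) [TopologicalSpace X] : Prop :=
  ∃ B : Set (Set X), IsTopologicalBasis B ∧ CountablyCompactFamily B

end Pool.Agent.Lib.MP_ea20df_gt
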