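import Pool.Agent.Lib.MP_ea20df_gt.Basic

open Set TopologicalSpace Filter Topology Cardinal

namespace Pool.Agent.Lib.MP_ea20df_gt

universe u

/-- `P` is a family of nonempty open sets, at most continuum many, which is a `π`-base for the
open set `V`. -/
def SmallPiBase {X : Type u} [TopologicalSpace X] (V : Set X) (P : Set (Set X)) : Prop :=
  #P ≤ 𝔠 ∧ (∀ p ∈ P, IsOpen p ∧ p.Nonempty) ∧
    ∀ O : Set X, IsOpen O → O.Nonempty → O ⊆ V → ∃ p ∈ P, p ⊆ O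

theorem exists_local_family {X : Type u} [TopologicalSpace X] [T35Space X] {V : Set X}
    (hV : ∃ Q : Set X, Pseudocompact Q ∧ V ⊆ Q) {P : Set (Set X)}
    (hP : SmallPiBase V P) :
    ∃ B : Set (Set X), (∀ b ∈ B, IsOpen b) ∧ (∀ b ∈ B, b.Nonempty) ∧ (∀ b ∈ B, b ⊆ V) ∧
      (∀ O : Set X, IsOpen O → O.Nonempty → O ⊆ V → ∃ b ∈ B, b ⊆ O) ∧
      CountablyCompactFamily B := by
  obtain ⟨hPc, hPo, hPb⟩ := hP
  obtain ⟨Q, hQ, hVQ⟩ := hV
  let I := {p : P × P // (∃ f : X → ℝ, Continuous f ∧ (∀ x ∈ p.1.1, f x ≤ 0) ∧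
    (∀ x, x ∉ p.2.1 → 1 ≤ f x)) ∧ p.2.1 ⊆ V}
  have hI : #I ≤ 𝔠 := by
    refine (Cardinal.mk_subtype_le _).trans ?_
    rw [Cardinal.mk_prod]
    simp only [Cardinal.lift_id]
    exact (mul_le_mul' hPc hPc).trans (Cardinal.mul_eq_self Cardinal.aleph0_le_continuum).le
  choose f hf h0 h1 using fun i : I => i.2.1
  obtain ⟨r, hr, hstrong⟩ := exists_generic hI f hf
  let B : Set (Set X) := range fun i : I => {x | f i x < r i}
  have hopen : ∀ b ∈ B, IsOpen b := by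
    rintro _ ⟨i, rfl⟩
    exact isOpen_lt (hf i) continuous_const
  have hBne : ∀ b ∈ B, b.Nonempty := by
    rintro _ ⟨i, rfl⟩
    obtain ⟨x, hx⟩ := (hPo _ i.1.1.2).2
    exact ⟨x, lt_of_le_of_lt (h0 i x hx) (hr i).1⟩
  have hsub : ∀ i, {x | f i x < r i} ⊆ i.1.2.1 := by
    intro i x hx
    by_contra hcon
    have h2 := h1 i x hcon
    have h3 : f i x < r i := hx
    have := (hr i).2
    linarith
  refine ⟨B, hopen, hBne, ?_, ?_, ?_⟩
  · rintro _ ⟨i, rfl⟩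
    exact (hsub i).trans i.2.2
  · intro O hO hOne hOV
    obtain ⟨q, hq, hqO⟩ := hPb O hO hOne hOV
    obtain ⟨x, hx⟩ := (hPo q hq).2
    obtain ⟨g, hg, hg0, hg1⟩ := CompletelyRegularSpace.completely_regular x qᶜ
      (hPo q hq).1.isClosed_compl (by simpa using hx)
    have hopen1 : IsOpen {y | (g y : ℝ) < 1 / 2} := isOpen_lt (by fun_prop) continuous_const
    have hsubq : {y | (g y : ℝ) < 1 / 2} ⊆ q := by
      intro y hy
      by_contra hcon
      have h2 := hg1 (show y ∈ qᶜ from hcon)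
      have h3 : (g y : ℝ) < 1 / 2 := hy
      simp only [Pi.one_apply] at h2
      rw [h2] at h3
      norm_num at h3
    obtain ⟨p, hp, hpO⟩ := hPb _ hopen1 ⟨x, by simp [hg0]⟩ (hsubq.trans (hqO.trans hOV))
    let i : I := ⟨(⟨p, hp⟩, ⟨q, hq⟩), ⟨fun y => 2 * (g y : ℝ) - 1, by fun_prop, by
      intro y hy
      have : (g y : ℝ) < 1 / 2 := hpO hy
      linarith, by
      intro y hy
      have := hg1 (show y ∈ qᶜ from hy)
      simp only [Pi.one_apply] at this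
      simp only [this]
      norm_num⟩, hqO.trans hOV⟩
    exact ⟨_, ⟨i, rfl⟩, (hsub i).trans hqO⟩
  · apply countablyCompact_of_strong hopen hBne
    · rintro _ ⟨i, rfl⟩
      exact ⟨Q, hQ, (hsub i).trans (i.2.2.trans hVQ)⟩
    · rintro _ ⟨i, rfl⟩ _ ⟨j, rfl⟩ h hij
      exact hstrong i j (fun h => hij (by rw [h])) h

/-- Spaces with locally small `π`-weight on a dense set. -/
theorem oxtoby_of_small {X : Type u} [TopologicalSpace X] [T35Space X]
    (hloc : LocallyPseudocompact X)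
    (hπ : ∀ U : Set X, IsOpen U → U.Nonempty → ∃ V : Set X, IsOpen V ∧ V.Nonempty ∧ V ⊆ U ∧
      ∃ P : Set (Set X), SmallPiBase V P) : OxtobyCC X := by
  let Good : Set X → Prop := fun V => IsOpen V ∧ V.Nonempty ∧
    (∃ Q : Set X, Pseudocompact Q ∧ V ⊆ Q) ∧ ∃ P : Set (Set X), SmallPiBase V P
  have hgood : ∀ U : Set X, IsOpen U → U.Nonempty → ∃ V, Good V ∧ V ⊆ U := by
    intro U hU ⟨x, hx⟩
    obtain ⟨O, hO, hxO, hOP⟩ := hloc x
    obtain ⟨V, hV, hVne, hVU, hVP⟩ := hπ (U ∩ O) (hU.inter hO) ⟨x, hx, hxO⟩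
    exact ⟨V, ⟨hV, hVne, ⟨closure O, hOP, hVU.trans (inter_subset_right.trans subset_closure)⟩,
      hVP⟩, hVU.trans inter_subset_left⟩
  obtain ⟨𝒱, h𝒱⟩ := zorn_subset {F : Set (Set X) | (∀ V ∈ F, Good V) ∧ F.PairwiseDisjoint id} (by
    intro c hc hch
    refine ⟨⋃₀ c, ⟨?_, ?_⟩, fun s hs => subset_sUnion_of_mem hs⟩
    · rintro V ⟨F, hF, hVF⟩
      exact (hc hF).1 V hVF
    · exact (pairwiseDisjoint_sUnion hch.directedOn).2 fun F hF => (hc hF).2)
  have hV𝒱 : ∀ V ∈ 𝒱, Good V := h𝒱.prop.1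
  have hdisj : 𝒱.PairwiseDisjoint id := h𝒱.prop.2
  have hmeet : ∀ U : Set X, IsOpen U → U.Nonempty → ∃ V ∈ 𝒱, (U ∩ V).Nonempty := by
    intro U hU hUne
    by_contra hcon
    push Not at hcon
    obtain ⟨V, hVg, hVU⟩ := hgood U hU hUne
    have h1 : insert V 𝒱 ∈ {F : Set (Set X) | (∀ V ∈ F, Good V) ∧ F.PairwiseDisjoint id} := by
      refine ⟨?_, ?_⟩
      · rintro V' (rfl | h)
        · exact hVg
        · exact hV𝒱 V' h
      · apply hdisj.insert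
        intro V' hV' _
        rw [id, id, disjoint_iff_inter_eq_empty]
        have := hcon V' hV'
        exact subset_eq_empty (inter_subset_inter_left _ hVU) this
    have h2 : V ∈ 𝒱 := h𝒱.le_of_ge h1 (subset_insert _ _) (mem_insert _ _)
    have h3 := hcon V h2
    obtain ⟨x, hx⟩ := hVg.2.1
    have : x ∈ U ∩ V := ⟨hVU hx, hx⟩
    rw [h3] at this
    exact this
  have hfam : ∀ V : 𝒱, ∃ B : Set (Set X), (∀ b ∈ B, IsOpen b) ∧ (∀ b ∈ B, b.Nonempty) ∧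
      (∀ b ∈ B, b ⊆ V.1) ∧ (∀ O : Set X, IsOpen O → O.Nonempty → O ⊆ V.1 → ∃ b ∈ B, b ⊆ O) ∧
      CountablyCompactFamily B := by
    intro V
    obtain ⟨_, _, hQ, P, hP⟩ := hV𝒱 V.1 V.2
    exact exists_local_family hQ hP
  choose B hBo hBne hBV hBb hBc using hfam
  refine ⟨⋃ V, B V, ⟨?_, ?_⟩, ?_, ?_⟩
  · intro b hb
    obtain ⟨V, hbV⟩ := mem_iUnion.1 hb
    rw [(hBo V b hbV).interior_eq]
    exact hBne V b hbV
  · intro U hU hUne
    obtain ⟨V, hV, hne⟩ := hmeet U hU hUne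
    obtain ⟨b, hb, hbU⟩ := hBb ⟨V, hV⟩ (U ∩ V) (hU.inter (hV𝒱 V hV).1) hne inter_subset_right
    exact ⟨b, mem_iUnion.2 ⟨_, hb⟩, hbU.trans inter_subset_left⟩
  · intro b hb
    obtain ⟨V, hbV⟩ := mem_iUnion.1 hb
    exact hBo V b hbV
  · intro s hs hdec
    have hanti : Antitone s := antitone_nat_of_succ_le hdec
    choose V hV using fun n => mem_iUnion.1 (hs n)
    have hVn : ∀ n, V n = V 0 := by
      intro n
      by_contra hne
      have h1 := hdisj (V n).2 (V 0).2 (fun h => hne (Subtype.ext h))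
      obtain ⟨x, hx⟩ := hBne _ _ (hV n)
      exact Set.disjoint_left.1 h1 (hBV _ _ (hV n) hx) (hBV _ _ (hV 0) (hanti (Nat.zero_le n) hx))
    exact hBc (V 0) s (fun n => hVn n ▸ hV n) hdec

end Pool.Agent.Lib.MP_ea20df_gt
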