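import Pool.Agent.Lib.MP_ea20df_gt.Basic

open Set TopologicalSpace Filter Topology Cardinal

namespace Pool.Agent.Lib.MP_ea20df_gt

universe u v

/-- Good bases of locally pseudocompact spaces of weight at most continuum. -/
theorem exists_good_base {X : Type u} [TopologicalSpace X] [T35Space X]
    (hloc : LocallyPseudocompact X)
    (hw : ∃ W : Set (Set X), IsTopologicalBasis W ∧ #W ≤ 𝔠) :
    ∃ B : Set (Set X), IsTopologicalBasis B ∧ (∀ b ∈ B, b.Nonempty) ∧
      (∀ b ∈ B, ∃ f : X → ℝ, Continuous f ∧ b = {x | f x < 0}) ∧ CountablyCompactFamily B := by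
  obtain ⟨W, hW, hWc⟩ := hw
  let I := {p : W × W // ∃ f : X → ℝ, Continuous f ∧ (∀ x ∈ p.1.1, f x ≤ 0) ∧
    (∀ x, x ∉ p.2.1 → 1 ≤ f x) ∧ p.1.1.Nonempty ∧ ∃ P : Set X, Pseudocompact P ∧ p.2.1 ⊆ P}
  have hI : #I ≤ 𝔠 := by
    refine (Cardinal.mk_subtype_le _).trans ?_
    rw [Cardinal.mk_prod]
    simp only [Cardinal.lift_id]
    exact (mul_le_mul' hWc hWc).trans (Cardinal.mul_eq_self Cardinal.aleph0_le_continuum).le
  choose f hf h0 h1 hne hP using fun i : I => i.2
  obtain ⟨r, hr, hstrong⟩ := exists_generic hI f hf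
  let B : Set (Set X) := range fun i : I => {x | f i x < r i}
  have hopen : ∀ b ∈ B, IsOpen b := by
    rintro _ ⟨i, rfl⟩
    exact isOpen_lt (hf i) continuous_const
  have hBne : ∀ b ∈ B, b.Nonempty := by
    rintro _ ⟨i, rfl⟩
    obtain ⟨x, hx⟩ := hne i
    exact ⟨x, lt_of_le_of_lt (h0 i x hx) (hr i).1⟩
  have hsub : ∀ i, {x | f i x < r i} ⊆ i.1.2.1 := by
    intro i x hx
    by_contra hcon
    have h2 := h1 i x hcon
    have h3 : f i x < r i := hx
    have := (hr i).2
    linarith
  refine ⟨B, ?_, hBne, ?_, ?_⟩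
  · apply isTopologicalBasis_of_isOpen_of_nhds hopen
    intro x U hx hU
    obtain ⟨O, hO, hxO, hOP⟩ := hloc x
    obtain ⟨w2, hw2, hxw2, hw2U⟩ := hW.exists_subset_of_mem_open (show x ∈ U ∩ O from ⟨hx, hxO⟩)
      (hU.inter hO)
    have hw2o : IsOpen w2 := hW.isOpen hw2
    obtain ⟨g, hg, hg0, hg1⟩ := CompletelyRegularSpace.completely_regular x w2ᶜ
      hw2o.isClosed_compl (by simpa using hxw2)
    have hopen1 : IsOpen {y | (g y : ℝ) < 1 / 2} := isOpen_lt (by fun_prop) continuous_const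
    obtain ⟨w1, hw1, hxw1, hw1U⟩ := hW.exists_subset_of_mem_open
      (show x ∈ {y | (g y : ℝ) < 1 / 2} by simp [hg0]) hopen1
    let i : I := ⟨(⟨w1, hw1⟩, ⟨w2, hw2⟩), fun y => 2 * (g y : ℝ) - 1, by fun_prop, by
      intro y hy
      have : (g y : ℝ) < 1 / 2 := hw1U hy
      linarith, by
      intro y hy
      have := hg1 (show y ∈ w2ᶜ from hy)
      simp only [Pi.one_apply] at this
      simp only [this]
      norm_num, ⟨x, hxw1⟩, closure O, hOP, hw2U.trans (inter_subset_right.trans subset_closure)⟩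
    refine ⟨_, ⟨i, rfl⟩, ?_, (hsub i).trans (hw2U.trans inter_subset_left)⟩
    exact lt_of_le_of_lt (h0 i x hxw1) (hr i).1
  · rintro _ ⟨i, rfl⟩
    exact ⟨fun x => f i x - r i, (hf i).sub continuous_const, by ext x; simp⟩
  · apply countablyCompact_of_strong hopen hBne
    · rintro _ ⟨i, rfl⟩
      obtain ⟨P, hP1, hP2⟩ := hP i
      exact ⟨P, hP1, (hsub i).trans hP2⟩
    · rintro _ ⟨i, rfl⟩ _ ⟨j, rfl⟩ h hij
      exact hstrong i j (fun h => hij (by rw [h])) h

/-- Subspaces of products which meet every nonempty `G_δ`-set. -/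
theorem product_telgarsky {ι : Type u} {X : ι → Type v} [∀ i, TopologicalSpace (X i)]
    (B : ∀ i, Set (Set (X i))) (hB : ∀ i, IsTopologicalBasis (B i))
    (hne : ∀ i, ∀ b ∈ B i, b.Nonempty)
    (hco : ∀ i, ∀ b ∈ B i, ∃ f : X i → ℝ, Continuous f ∧ b = {x | f x < 0})
    (hcc : ∀ i, CountablyCompactFamily (B i)) (Y : Set (∀ i, X i))
    (hY : ∀ G : Set (∀ i, X i), IsGδ G → G.Nonempty → (G ∩ Y).Nonempty) : TelgarskyCC Y := by
  classical
  by_cases hemp : Nonempty (∀ i, X i)
  swap
  · rw [not_nonempty_iff] at hemp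
    have : IsEmpty Y := ⟨fun y => hemp.false y.1⟩
    refine ⟨∅, ?_, fun s hs => absurd (hs 0) (notMem_empty _)⟩
    apply isTopologicalBasis_of_isOpen_of_nhds
    · intro u hu; exact absurd hu (notMem_empty _)
    · intro y; exact (this.false y).elim
  have hXne : ∀ i, Nonempty (X i) := fun i => ⟨hemp.some i⟩
  refine ⟨_, (isTopologicalBasis_pi hB).isInducing (Topology.IsInducing.subtypeVal (t := Y)), ?_⟩
  intro s hs hdec
  have hs' : ∀ n, ∃ (U : ∀ i, Set (X i)) (F : Finset ι), (∀ i, i ∈ F → U i ∈ B i) ∧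
      s n = Subtype.val ⁻¹' ((F : Set ι).pi U) := by
    intro n
    obtain ⟨_, ⟨U, F, hU, rfl⟩, h⟩ := hs n
    exact ⟨U, F, hU, h.symm⟩
  choose U F hU hsn using hs'
  -- the sets are decreasing in the product
  have hopenV : ∀ n, IsOpen ((F n : Set ι).pi (U n)) := fun n =>
    isOpen_set_pi (Finset.finite_toSet _) fun i hi => (hB i).isOpen (hU n i hi)
  have hVdec : ∀ n, (F (n + 1) : Set ι).pi (U (n + 1)) ⊆ (F n : Set ι).pi (U n) := by
    intro n z hz i hi
    obtain ⟨f, hf, hfe⟩ := hco i _ (hU n i hi)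
    by_contra hzi
    rw [hfe] at hzi
    have hzi' : 0 ≤ f (z i) := not_lt.1 hzi
    have hG : IsGδ ((F (n + 1) : Set ι).pi (U (n + 1)) ∩ {w | 0 ≤ f (w i)}) := by
      apply (hopenV (n + 1)).isGδ.inter
      have hc : Continuous fun w : ∀ i, X i => f (w i) := hf.comp (continuous_apply i)
      have e : {w : ∀ i, X i | 0 ≤ f (w i)} = ⋂ k : ℕ, {w | -(1 / ((k : ℝ) + 1)) < f (w i)} := by
        ext w
        simp only [mem_ofPred_eq, mem_iInter]
        constructor
        · intro h k
          have : (0 : ℝ) < 1 / ((k : ℝ) + 1) := by positivity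
          linarith
        · intro h
          by_contra hcon
          obtain ⟨k, hk⟩ := exists_nat_one_div_lt (show 0 < -f (w i) by linarith)
          have := h k
          linarith
      rw [e]
      exact .iInter_of_isOpen fun k => isOpen_lt continuous_const hc
    obtain ⟨w, ⟨hw1, hw2⟩, hw3⟩ := hY _ hG ⟨z, hz, hzi'⟩
    have h1 : (⟨w, hw3⟩ : Y) ∈ s (n + 1) := by rw [hsn]; exact hw1
    have h2 := hdec n h1
    rw [hsn] at h2
    have h3 := h2 i hi
    rw [hfe] at h3
    exact absurd (show 0 ≤ f (w i) from hw2) (not_le.2 h3)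
  -- coordinate sets
  let C : ℕ → (i : ι) → Set (X i) := fun n i => if i ∈ F n then U n i else univ
  have hVC : ∀ n, (F n : Set ι).pi (U n) = univ.pi (C n) := by
    intro n
    ext z
    constructor
    · intro h i _
      show z i ∈ if i ∈ F n then U n i else univ
      split_ifs with hi
      · exact h i hi
      · exact mem_univ _
    · intro h i hi
      have h1 : z i ∈ if i ∈ F n then U n i else univ := h i (mem_univ i)
      rwa [if_pos (Finset.mem_coe.1 hi)] at h1
  have hCne : ∀ n i, (C n i).Nonempty := by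
    intro n i
    simp only [C]
    split_ifs with hi
    · exact hne i _ (hU n i hi)
    · have := hXne i
      exact univ_nonempty
  have hCdec : ∀ i n, C (n + 1) i ⊆ C n i := by
    intro i n
    have h := hVdec n
    rw [hVC, hVC, pi_subset_pi_iff] at h
    rcases h with h | h
    · exact h i (mem_univ i)
    · exact absurd h (univ_pi_nonempty_iff.2 (hCne _)).ne_empty
  have hCanti : ∀ i, Antitone fun n => C n i := fun i => antitone_nat_of_succ_le (hCdec i)
  have hCint : ∀ i, (⋂ n, C n i).Nonempty := by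
    intro i
    by_cases h : ∃ N, i ∈ F N
    · obtain ⟨N, hN⟩ := h
      have hmem : ∀ n, C (N + n) i ∈ B i := by
        intro n
        by_cases hn : i ∈ F (N + n)
        · simp only [C, if_pos hn]
          exact hU _ i hn
        · have h1 : C (N + n) i ⊆ C N i := hCanti i (Nat.le_add_right N n)
          simp only [C, if_neg hn, if_pos hN] at h1 ⊢
          rw [← univ_subset_iff.1 h1]
          exact hU _ i hN
      obtain ⟨x, hx⟩ := hcc i (fun n => C (N + n) i) hmem (fun n => hCdec i (N + n))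
      refine ⟨x, mem_iInter.2 fun n => ?_⟩
      have h1 : C (N + n) i ⊆ C n i := hCanti i (Nat.le_add_left n N)
      exact h1 (mem_iInter.1 hx n)
    · push Not at h
      obtain ⟨x⟩ := hXne i
      refine ⟨x, mem_iInter.2 fun n => ?_⟩
      simp only [C, if_neg (h n)]
      exact mem_univ x
  choose z hz using hCint
  have hzV : z ∈ ⋂ n, (F n : Set ι).pi (U n) := by
    rw [mem_iInter]
    intro n
    rw [hVC]
    intro i _
    exact mem_iInter.1 (hz i) n
  obtain ⟨w, hw1, hw2⟩ := hY _ (.iInter_of_isOpen hopenV) ⟨z, hzV⟩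
  refine ⟨⟨w, hw2⟩, mem_iInter.2 fun n => ?_⟩
  rw [hsn]
  exact mem_iInter.1 hw1 n

end Pool.Agent.Lib.MP_ea20df_gt
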